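import Mathlib
import Pool.Agent.TH170.GS.Main
import Pool.Agent.TH117.PO.Full

/-!
# The numerical Hodge standard conjecture for abelian varieties over finite fields with almost all
slope types of arbitrary CM fields

Over an algebraic closure of the field with `p` elements each abelian variety is isogenous to the
reduction of an abelian variety of CM type (Honda, Tate). So an abelian variety over the field with
`p ^ a` elements is modelled by `RedAV`: a finite product of CM types `(E i, Φ i)` with Weil numbers
`π i ∈ E i` that satisfy the formula of Shimura and Taniyama; its cohomology of degree `n`, with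
coefficients in an algebraically closed field `Ω`, consists of the alternating `n`-forms on
`Ω ⊗ H_1`, on which the Frobenius endomorphism acts by `π`. We fix an isomorphism `ν` of the algebraic
closure of `ℚ_p` with `ℂ`; it defines a `p`-adic valuation of `ℂ`, with the value one at `p`.

Let `K` be a CM field of degree `2 g`; nothing is assumed about its Galois group. Let `M` be a
function with nonzero integral values on the complex embeddings of `K`, invariant under complex
conjugation. A CM type `Φ` of `K` (a choice of one element out of each complex conjugate pair of
embeddings; there are `2 ^ g` types), `M` and a real number `κ ≠ 0` prescribe the slopes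
`(a + κ M) / 2` (at the embeddings in `Φ`) and `(a - κ M) / 2` (outside of `Φ`) of a Weil number in
`K`. If `p` splits completely in `K` then, by Honda and Tate, all slopes with rational values between
`0` and `a` that are symmetric in this way occur for abelian varieties. The case `M = 1`, `κ = a` is
the ordinary case; the assumption on `M` says that `a / 2` is not a slope. Slopes are rational, so
integral weights `M` are no restriction.

Let `K i` be finitely many CM fields, of degrees `2 g i`, that are pairwise independent: for `i ≠ k`
and all complex embeddings `φ` of `K i` and `ψ` of `K k` some automorphism of `ℂ` is the identity on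
`φ (K i)` and the complex conjugation on `ψ (K k)` (this is no condition for one field). Let `M i`
be weights as above all of whose values divide `n i`. There are `2 ^ (∑ i, g i)` families of
CM types `Φ i` of the fields `K i`. For such a family let `𝒞` (`OfTypes`) be the class of the abelian
varieties `Y` each of whose factors is supersingular or has a Frobenius endomorphism some power of
which is, for some `i`, a Weil number in `K i` with the slopes prescribed by `Φ i`, `M i` and some
real number `κ i ≠ 0` (which depends only on `Y` and `i`). So `Y` is, over an algebraic closure,
isogenous to a product of powers of one abelian variety for each `i`, with the given slopes, and of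
a supersingular one.

A family of types is exceptional (`exceptionalFamilies ν K M`) if the following fails for some abelian
variety `Y` in `𝒞` (`Holds`): homological and numerical equivalence agree on `Y`, and the numerical
Hodge standard conjecture is true for `Y`. That is, for all `Y` in `𝒞` and all `r`, (1) the class `z` in
`H^{2 r}(Y)` of an algebraic cycle is zero if its cup products with the classes of the algebraic
cycles of complementary dimension are zero (`IsNumTrivial`); (2) for all polarizations, with
`dim Y = 2 r + m`, if the class `z` of a cycle of codimension `r` is not numerically equivalent to zero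
and its product with the power `m + 1` of the class `E` of the polarization is zero (`IsPrim`; by (1)
this is the same for homological and for numerical equivalence), then `(-1)^r z ∪ z ∪ E^m > 0`
(`IsPosClass`).

The space of the classes of algebraic cycles of degree `card κ` on `Y`, with rational coefficients, is
`C Y κ`. The properties of these spaces that are used are known theorems: they are closed under sums,
cup products, pull-backs and push-forwards, they contain the Hodge classes of degree two of the
liftings (Lefschetz) and the split Weil classes of degree four and six (Markman; not needed here), and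
the Tate classes of degree two are combinations of such classes (Tate) (`IsCycleSystem`); the positivity
of the Rosati involution (Weil, `IsRosatiPositive`); classes of cycles are Tate classes over finite
extensions (`AreTate`). The polarizations are those compatible with the complex multiplications of the
lifting (`IsPolar`, with the Riemann form `∑ i, Tr (α i * conj (x i) * y i)`); by theorems of Honda,
Tate and Zink each polarized abelian variety over an algebraic closure of a finite field is isogenous
to the reduction of such a polarized abelian variety. That the positivity follows if all Tate classes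
are combinations of products of classes of divisors was formalized by helper117 (MP_c0b458_ag
PowersAndProducts).

The theorem bounds the number of the exceptional families: it is at most
`2 ^ (∑ i, g i) * ∑ i, ρ (K i)`. Here `ρ (K)` (`rho n g φ₀`) is described as follows. The
automorphisms of `ℂ` act on the set of the `2 g` complex embeddings of `K` through a finite group
`G` (the Galois group of the normal closure), and so on the space `V`, of dimension `g`, of the
rational functions on this set that change their sign under complex conjugation. Then `ρ (K)` is the
sum of the numbers `w (W)` (`weight n g φ₀ W`) over the isotypic components `W` of `V`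
(`components K`):

* `w (W) = 0` if `n` is odd and every minimal Galois-stable space in `W` contains a function with
  integral values whose sum over a CM type is odd;
* otherwise `w (W) = (2 d / (π g)) ^ (d / 2)` if `W` is itself a minimal space, of dimension `d`;
* otherwise `w (W)` is the smaller of `(53 λ d / g) ^ (c / 2)` (if
  `(10 ^ 4 + 10 λ) ^ 2 λ d ≤ 2 g`; replaced by `1` if not) and
  `8 (2 d / (π g)) ^ (d / 2) (10 ^ 4 + 10 λ + 6 √(d g)) ^ (d - c)`. Here `λ = log (|G| n)`,
  `d = dim S` for the minimal spaces `S` in `W`, and `c = e + d - h`, where `e` is the dimension of
  the space of the equivariant endomorphisms of `S` and `h` the dimension of the space of the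
  functions in `S` that are invariant under the stabilizer of a complex embedding.

Let `Q` be the number of the imaginary quadratic subfields of `K` and `N d` the number of the
components `W` that are minimal spaces of dimension `d`. The second part (`RhoEstimate`) is the
estimate `ρ (K) ≤ Q / √g + 2 (N 2 + 1) / g + 3 N 3 / g ^ (3 / 2) + ∑ w (W)`, where the last sum is
over the components `W` which are not minimal, and the term `Q / √g` is omitted if `n g` is odd. The
third part (`NoMultipleComponents`) says that there are no such components if `K` is abelian over
`ℚ`, or if any two complex embeddings of `K` are exchanged by some automorphism of `ℂ` (for instance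
`K = k F` for an imaginary quadratic field `k` and a totally real field `F` with this property, such
as the fields of degree `binomial (n, m)` which belong to the sets with `m` elements of roots of a
polynomial of degree `n` with real roots and Galois group `S_n`). Always `N 3 ≤ g / 3`; if `K` is
cyclic over `ℚ` then `g` is odd or `Q = 0`, and `N 2 ≤ 2`, `N 3 = 0`.

The proof: if there are relations between the Frobenius eigenvalues of `Z` that are not generated by
those of the complex conjugate pairs, then for one of the types the sign function, multiplied by
`M`, is orthogonal to a minimal Galois-stable space. The number of these sign functions is estimated by a Fourier integral and the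
inequality of Hölder. There are in general infinitely many minimal spaces isomorphic to `S`, but
modulo a prime number `ℓ` that does not divide `|G| n` there are only about `ℓ ^ (h - e)` of them.
-/

namespace Pool.Agent.Results.MP_c0b458_ag.AlmostAllSlopeTypes

open NumberField Module Pool.Agent.H204R3.CM Pool.Agent.H977R3.CM Pool.Agent.TH170

open Pool.Agent.TH117.PO Pool.Agent.W495.TA Pool.Agent.W547.KB

/-- Homological and numerical equivalence agree on all abelian varieties `Y` with the slope types `Φ`,
and the numerical Hodge standard conjecture is true for `Y`: if the class `z` in `H^{2 r}(Y)` of an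
algebraic cycle is primitive and not numerically equivalent to zero then `(-1)^r z ∪ z ∪ E^m > 0`,
where `E` is the class of the polarization given by `α`, and `dim Y = 2 r + m`. -/
def Holds {p : ℕ} [Fact p.Prime] (ν : PadicAlgCl p ≃+* ℂ) {I : Type} (K : I → Type)
    [∀ i, Field (K i)] (M : ∀ i, (K i →+* ℂ) → ℤ) (Φ : ∀ i, Set (K i →+* ℂ)) : Prop :=
  ∀ (Ω : Type) [Field Ω] [CharZero Ω] [IsAlgClosed Ω]
    (C : (Y : RedAV p ν) → (κ : Type) → ((TM Ω Y) [⋀^κ]→ₗ[Ω] Ω) → Prop), IsCycleSystem Ω C →
    IsRosatiPositive Ω C → AreTate Ω C → ∀ Y : RedAV p ν, GS.OfTypes K M Φ Y →
      ∀ (r : ℕ) (z : (TM Ω Y) [⋀^Fin r × Fin 2]→ₗ[Ω] Ω), C Y (Fin r × Fin 2) z →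
        (IsNumTrivial Ω C z → z = 0) ∧
        ∀ α : Y.X.H1, IsPolar Y.X α → ∀ m : ℕ, 2 * (2 * r + m) = finrank ℚ Y.X.H1 →
          ¬ IsNumTrivial Ω C z → IsPrim α m z → IsPosClass α m z

/-- The exceptional families of CM types. -/
def exceptionalFamilies {p : ℕ} [Fact p.Prime] (ν : PadicAlgCl p ≃+* ℂ) {I : Type} (K : I → Type)
    [∀ i, Field (K i)] (M : ∀ i, (K i →+* ℂ) → ℤ) : Set (∀ i, Set (K i →+* ℂ)) :=
  {Φ | (∀ i, IsCMType (Φ i)) ∧ ¬ Holds ν K M Φ}

theorem holds_of {p : ℕ} [Fact p.Prime] {ν : PadicAlgCl p ≃+* ℂ} {I : Type} (K : I → Type)
    [∀ i, Field (K i)] (M : ∀ i, (K i →+* ℂ) → ℤ) (Φ : ∀ i, Set (K i →+* ℂ))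
    (h : ∀ Y : RedAV p ν, GS.OfTypes K M Φ Y → ∃ Z : RedAV p ν,
      TH117.BL.HasElementaryRelations Z ∧ TH117.BL.IsPowersTimesSupersingular Z Y) :
    Holds ν K M Φ := by
  intro Ω _ _ _ C hC hR hT Y hY r z hz
  have hA : Alg Ω Y (Fin r × Fin 2) z := alg_of_tate hC hT (alg_of_cases (Or.inr (h Y hY))) hz
  refine ⟨fun hnum => nondegenerate hC hA hnum, fun α hα m hrm hz0 hprim => ?_⟩
  refine positive_full hC hR hT (Or.inr (h Y hY)) hα hrm hz (fun h0 => hz0 ?_) hprim
  subst h0
  intro κ' _ _ y _ _ v
  unfold Pool.Agent.W547.HR.altSum Pool.Agent.W547.HR.times res
  simp

/-- **The numerical Hodge standard conjecture for all abelian varieties over finite fields with almost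
all slope types of CM fields.** -/
theorem result :
    (∀ (p : ℕ) [Fact p.Prime] (ν : PadicAlgCl p ≃+* ℂ) {I : Type} [Fintype I] (K : I → Type)
      [∀ i, Field (K i)] [∀ i, NumberField (K i)] [∀ i, IsCMField (K i)]
      (M : ∀ i, (K i →+* ℂ) → ℤ) (n g : I → ℕ) (φ₀ : ∀ i, K i →+* ℂ), PairwiseIndep K →
      (∀ i φ, M i (ComplexEmbedding.conjugate φ) = M i φ) → (∀ i, n i ≠ 0) →
      (∀ i φ, M i φ ∣ (n i : ℤ)) → (∀ i, finrank ℚ (K i) = 2 * g i) →
      ((exceptionalFamilies ν K M).ncard : ℝ) ≤
        2 ^ (∑ i, g i) * ∑ i, GS.rho (n i) (g i) (φ₀ i)) ∧
    GS.RhoEstimate ∧ GS.NoMultipleComponents :=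
  ⟨fun _ _ ν _ _ K _ _ _ M n g φ₀ hind hM hn hMn hg =>
    GS.ncard_le ν K M n g φ₀ hind hM hn hMn hg _ fun Φ h => holds_of K M Φ h,
    GS.rhoEstimate, GS.noMultipleComponents⟩

end Pool.Agent.Results.MP_c0b458_ag.AlmostAllSlopeTypes
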