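import Pool.Agent.TH117.PO.Final

/-!
# The numerical Hodge standard conjecture for abelian varieties over finite fields on the classes
generated by divisors and by split Weil classes
-/

namespace Pool.Agent.Results.MP_c0b458_ag.KnownClassesPositive

open Pool.Agent.TH117.PO Pool.Agent.W495.TA Module

/-- Let `Y` be an abelian variety over an algebraic closure of a finite field with the polarization given
by `α`, and `z` a primitive class in `H^{2r}(Y)` of an algebraic cycle with rational coefficients, `z ≠ 0`
(`C` is the system of these classes). If `z` belongs to the smallest system of classes which contains the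
classes of divisors and the split Weil classes on the abelian varieties of dimension four and six, on all
abelian varieties over the field, and which is stable under linear combinations, cup products, pull-backs
and push-forwards, then `(-1)^r z ∪ z ∪ E^m > 0`. -/
theorem result (p : ℕ) [Fact p.Prime] (ν : PadicAlgCl p ≃+* ℂ) (Ω : Type) [Field Ω] [CharZero Ω]
    [IsAlgClosed Ω]
    (C : (Y : RedAV p ν) → (κ : Type) → ((TM Ω Y) [⋀^κ]→ₗ[Ω] Ω) → Prop) (hC : IsCycleSystem Ω C)
    (hR : IsRosatiPositive Ω C)
    (Y : RedAV p ν) (α : Y.X.H1) (hα : IsPolar Y.X α) (r m : ℕ)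
    (hrm : 2 * (2 * r + m) = finrank ℚ Y.X.H1)
    (z : (TM Ω Y) [⋀^Fin r × Fin 2]→ₗ[Ω] Ω) (hz : C Y (Fin r × Fin 2) z)
    (hA : Alg Ω Y (Fin r × Fin 2) z) (hz0 : z ≠ 0) (hprim : IsPrim α m z) : IsPosClass α m z :=
  positive hC hR hα hrm hz hA hz0 hprim

end Pool.Agent.Results.MP_c0b458_ag.KnownClassesPositive
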