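import Pool.Agent.W547.UB.Tate

/-!
# The standard conjecture of Hodge type for ordinary abelian varieties in independent blocks

Let `A₀` be an ordinary abelian variety over the field with `q = p ^ a` elements, isogenous (after a
finite extension of the base field) to a product of any number of absolutely simple abelian varieties
`A₀ i` with complex multiplication by CM fields `E i` containing their Frobenius endomorphisms `π i`.
Its canonical lift is isogenous to the product `X` of the abelian varieties `A i` with complex
multiplication by `E i` and the CM types `Φ i` given by the embeddings `φ` for which `φ (π i)` has
slope one. The factors are divided into blocks (the block of the factor `A i` is `b i`), such that for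
each block there is an automorphism of the field of complex numbers that acts as the complex
conjugation on all embeddings of the CM fields in this block and trivially on all embeddings of the
CM fields in the other blocks (for one block this is no condition). Each block is of one of the
following kinds:

* its factors have dimension at most three, and any two of them whose CM fields have the same Galois
  closure over `ℚ` have isomorphic CM types, unless these CM fields are Galois over `ℚ`;
* its factors are factors (up to isogeny) of one abelian variety of CM type of dimension at most
  five, each with any multiplicity;
* its factors have the same CM type, with a CM field of degree at most fourteen;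
* its factors are factors (up to isogeny) of one nondegenerate abelian variety of CM type, of
  arbitrary dimension, each with any multiplicity.

Let `E` be a polarization of `X`, with class `L`, and let `z ∈ H^{2r}(A₀, ℚ_ℓ)`, `2 r ≤ d = dim X`, be
a class (an alternating form in `2 r` variables, indexed by `Fin r × Fin 2`, on the rational Tate
module `V = K ⊗ H_1(X, ℚ)`, `K = ℚ_ℓ`) which is nonzero and primitive: `z ∪ L^{d - 2r + 1} = 0`.
Assume that `z` has the following two properties, shared by all classes of algebraic cycles:

* it is a Tate class: the `s`-th power of the Frobenius endomorphism multiplies it by `q ^ {r s}` for
  some `s > 0`;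
* its intersection numbers with the classes of complementary degree in the ring generated by the
  classes of divisors on `X` and by the pull-backs, along homomorphisms `X → Y`, of the Weil
  classes of imaginary quadratic fields on abelian fourfolds and sixfolds `Y` of CM type and of split
  Weil type are rational. (The classes in this ring are algebraic by theorems of Markman.)

Then `(-1)^r z ∪ z ∪ L^{d - 2r} = c L^d` with a positive rational number `c`. So the standard
conjecture of Hodge type holds for `A₀`, for every prime number `ℓ ≠ p`.
-/

namespace Pool.Agent.Results.MP_c0b458_ag.OrdinaryBlocks

open Module Pool.Agent.W547.KB Pool.Agent.W547.LD Pool.Agent.W530.NF Pool.Agent.W547.LN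
open Pool.Agent.W547.HR Pool.Agent.W547.UB

/-- `X` is the canonical lift of `A₀`, in independent blocks; every nonzero primitive class `z` with
the properties of algebraic classes satisfies the positivity of the conjecture. -/
theorem result (p : ℕ) [Fact p.Prime] (a : ℕ) (ha : 0 < a) (ν : PadicAlgCl p ≃+* ℂ)
    (X : CMAV) {J : Type} (b : X.I → J) (hX : IndependentBlocks X b)
    (π : X.H1) (hπ : IsCanonicalLift p a ν X π)
    {K V : Type} [Field K] [CharZero K] [AddCommGroup V] [Module K V]
    (C : Comparison X K V) (F : V →ₗ[K] V) (hF : IsFrobeniusMap C π F)
    {E : X.H1 → X.H1 → ℚ} (hE : IsPolarization X E) (r m : ℕ)
    (hd : 2 * (2 * r + m) = finrank ℚ X.H1) (z : V [⋀^Fin r × Fin 2]→ₗ[K] K) (s : ℕ)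
    (hs : 0 < s) (htate : IsTateOver F (p ^ a) s z) (hrat : HasRationalNumbers C z)
    (hprim : IsPrimitive C E m z) (hz : z ≠ 0) : IsPositive C E m z :=
  Pool.Agent.W547.UB.hodgeStandard X b hX p a ha ν π hπ C F hF hE r m hd z s hs htate hrat hprim hz

end Pool.Agent.Results.MP_c0b458_ag.OrdinaryBlocks
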