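import Pool.Agent.TH117.PO.Full

/-!
# The numerical Hodge standard conjecture for abelian varieties with elementary Frobenius relations
-/

namespace Pool.Agent.Results.MP_c0b458_ag.PowersAndProducts

open Pool.Agent.TH117.PO Pool.Agent.TH117.BL Pool.Agent.W495.TA Pool.Agent.W547.KB Module

/-- The numerical Hodge standard conjecture for an abelian variety `Y` over an algebraic closure of a
finite field which is isogenous either to the product of a supersingular abelian variety and of a power
of an abelian variety of dimension at most five, or to the product of a supersingular abelian variety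
and of powers of abelian varieties with elementary relations between the Frobenius eigenvalues: for each
primitive class `z ≠ 0` in `H^{2r}(Y)` of an algebraic cycle, `(-1)^r z ∪ z ∪ E^m > 0`. -/
theorem result (p : ℕ) [Fact p.Prime] (ν : PadicAlgCl p ≃+* ℂ) (Ω : Type) [Field Ω] [CharZero Ω]
    [IsAlgClosed Ω]
    (C : (Y : RedAV p ν) → (κ : Type) → ((TM Ω Y) [⋀^κ]→ₗ[Ω] Ω) → Prop) (hC : IsCycleSystem Ω C)
    (hR : IsRosatiPositive Ω C) (hT : AreTate Ω C) (Y : RedAV p ν)
    (hY : (∃ (A : CMPair) (b : ℕ) (ϖ : A.E), finrank ℚ A.E ≤ 10 ∧ 0 < b ∧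
      IsFrobenius p ν A b ϖ ∧ IsPowerTimesSupersingular A b ϖ Y) ∨
      ∃ Z : RedAV p ν, HasElementaryRelations Z ∧ IsPowersTimesSupersingular Z Y)
    (α : Y.X.H1) (hα : IsPolar Y.X α) (r m : ℕ) (hrm : 2 * (2 * r + m) = finrank ℚ Y.X.H1)
    (z : (TM Ω Y) [⋀^Fin r × Fin 2]→ₗ[Ω] Ω) (hz : C Y (Fin r × Fin 2) z) (hz0 : z ≠ 0)
    (hprim : IsPrim α m z) : IsPosClass α m z :=
  positive_full hC hR hT hY hα hrm hz hz0 hprim

end Pool.Agent.Results.MP_c0b458_ag.PowersAndProducts
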